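import Mathlib

/-!
Convex monoids, the free convex monoids `D(G*)`, congruences, finite presentability,
syntactic convex monoids and probabilistic automata.
-/

namespace Pool.Agent.Q312.ConvMon

open MonoidAlgebra

/-- Convex monoids: `cc r x y` is the convex combination `r x + (1 - r) y`. The first four laws are
the laws of convex sets (algebras of the distribution monad), the last two say that the
multiplication is affine in each variable. -/
class ConvexMonoid (M : Type) extends Monoid M where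
  /-- the convex combination `r x + (1 - r) y` -/
  cc : unitInterval → M → M → M
  cc_one : ∀ x y, cc 1 x y = x
  cc_self : ∀ r x, cc r x x = x
  cc_comm : ∀ r x y, cc r x y = cc (unitInterval.symm r) y x
  cc_assoc : ∀ (p q r s : unitInterval) (x y z : M), (r : ℝ) = p * q →
    (1 - (r : ℝ)) * s = p * (1 - q) → cc p (cc q x y) z = cc r x (cc s y z)
  mul_cc : ∀ (r : unitInterval) (x y z : M), x * cc r y z = cc r (x * y) (x * z)
  cc_mul : ∀ (r : unitInterval) (x y z : M), cc r x y * z = cc r (x * z) (y * z)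

export ConvexMonoid (cc)

/-- Morphisms of convex monoids. -/
structure IsHom {M N : Type} [ConvexMonoid M] [ConvexMonoid N] (φ : M → N) : Prop where
  map_one : φ 1 = 1
  map_mul : ∀ x y, φ (x * y) = φ x * φ y
  map_cc : ∀ r x y, φ (cc r x y) = cc r (φ x) (φ y)

/-- Congruences of convex monoids. -/
structure Cong (M : Type) [ConvexMonoid M] where
  /-- the relation -/
  r : M → M → Prop
  equiv : Equivalence r
  mul : ∀ {a b c d}, r a b → r c d → r (a * c) (b * d)
  conv : ∀ {a b c d} (t : unitInterval), r a b → r c d → r (cc t a c) (cc t b d)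

/-- The quotient by a congruence. -/
def Cong.Quot {M : Type} [ConvexMonoid M] (C : Cong M) : Type := Quotient (⟨C.r, C.equiv⟩ : Setoid M)

/-- The class of an element. -/
def Cong.cls {M : Type} [ConvexMonoid M] (C : Cong M) (x : M) : C.Quot :=
  Quotient.mk (⟨C.r, C.equiv⟩ : Setoid M) x

lemma Cong.cls_eq {M : Type} [ConvexMonoid M] (C : Cong M) {x y : M} :
    C.cls x = C.cls y ↔ C.r x y :=
  Quotient.eq (r := (⟨C.r, C.equiv⟩ : Setoid M))

lemma Cong.cls_surj {M : Type} [ConvexMonoid M] (C : Cong M) : Function.Surjective C.cls :=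
  Quotient.mk_surjective

instance {M : Type} [ConvexMonoid M] (C : Cong M) : ConvexMonoid C.Quot where
  mul := Quotient.map₂ (· * ·) fun _ _ h1 _ _ h2 => C.mul h1 h2
  one := C.cls 1
  mul_assoc := by
    rintro ⟨a⟩ ⟨b⟩ ⟨c⟩
    exact congrArg C.cls (mul_assoc a b c)
  one_mul := by
    rintro ⟨a⟩
    exact congrArg C.cls (one_mul a)
  mul_one := by
    rintro ⟨a⟩
    exact congrArg C.cls (mul_one a)
  cc t := Quotient.map₂ (cc t) fun _ _ h1 _ _ h2 => C.conv t h1 h2
  cc_one := by
    rintro ⟨a⟩ ⟨b⟩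
    exact congrArg C.cls (ConvexMonoid.cc_one a b)
  cc_self := by
    rintro r ⟨a⟩
    exact congrArg C.cls (ConvexMonoid.cc_self r a)
  cc_comm := by
    rintro r ⟨a⟩ ⟨b⟩
    exact congrArg C.cls (ConvexMonoid.cc_comm r a b)
  cc_assoc := by
    rintro p q r s ⟨a⟩ ⟨b⟩ ⟨c⟩ h1 h2
    exact congrArg C.cls (ConvexMonoid.cc_assoc p q r s a b c h1 h2)
  mul_cc := by
    rintro r ⟨a⟩ ⟨b⟩ ⟨c⟩
    exact congrArg C.cls (ConvexMonoid.mul_cc r a b c)
  cc_mul := by
    rintro r ⟨a⟩ ⟨b⟩ ⟨c⟩
    exact congrArg C.cls (ConvexMonoid.cc_mul r a b c)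

lemma Cong.isHom_cls {M : Type} [ConvexMonoid M] (C : Cong M) : IsHom C.cls :=
  ⟨rfl, fun _ _ => rfl, fun _ _ _ => rfl⟩

/-- `D(M)`: the finitely supported probability distributions on a monoid `M`, as elements of the
monoid algebra. -/
def PDist (M : Type) [Monoid M] : Type :=
  {x : MonoidAlgebra ℝ M // (∀ m, 0 ≤ x.coeff m) ∧ x.coeff.sum (fun _ r => r) = 1}

section

variable {M : Type} [Monoid M]

/-- the sum of the coefficients -/
noncomputable def aug (M : Type) [Monoid M] : MonoidAlgebra ℝ M →ₐ[ℝ] ℝ :=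
  MonoidAlgebra.lift ℝ ℝ M (1 : M →* ℝ)

lemma aug_eq (x : MonoidAlgebra ℝ M) : aug M x = x.coeff.sum (fun _ r => r) := by
  unfold aug
  rw [MonoidAlgebra.lift_apply]
  simp

lemma mul_nonneg' {x y : MonoidAlgebra ℝ M} (hx : ∀ m, 0 ≤ x.coeff m) (hy : ∀ m, 0 ≤ y.coeff m)
    (m : M) : 0 ≤ (x * y).coeff m := by
  classical
  rw [MonoidAlgebra.coeff_mul]
  apply Finset.sum_nonneg
  intro a _
  apply Finset.sum_nonneg
  intro b _
  dsimp only
  split_ifs
  · exact mul_nonneg (hx a) (hy b)
  · exact le_rfl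

lemma le_mul_coeff {x y : MonoidAlgebra ℝ M} (hx : ∀ m, 0 ≤ x.coeff m) (hy : ∀ m, 0 ≤ y.coeff m)
    (a b : M) : x.coeff a * y.coeff b ≤ (x * y).coeff (a * b) := by
  classical
  by_cases ha : x.coeff a = 0
  · rw [ha, zero_mul]; exact mul_nonneg' hx hy _
  by_cases hb : y.coeff b = 0
  · rw [hb, mul_zero]; exact mul_nonneg' hx hy _
  have h0 : ∀ c d : M, 0 ≤ (if c * d = a * b then x.coeff c * y.coeff d else 0) := by
    intro c d
    split_ifs
    · exact mul_nonneg (hx _) (hy _)
    · exact le_rfl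
  rw [MonoidAlgebra.coeff_mul]
  refine le_trans ?_ (Finset.single_le_sum (f := fun c => y.coeff.sum fun d r =>
    if c * d = a * b then x.coeff c * r else 0)
    (fun c _ => Finset.sum_nonneg fun d _ => h0 c d) (Finsupp.mem_support_iff.mpr ha))
  refine le_trans ?_ (Finset.single_le_sum (f := fun d =>
    if a * d = a * b then x.coeff a * y.coeff d else 0)
    (fun d _ => h0 a d) (Finsupp.mem_support_iff.mpr hb))
  simp

/-- the element of `D(M)` concentrated at `m` -/
noncomputable def PDist.pure (m : M) : PDist M :=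
  ⟨MonoidAlgebra.single m 1, fun m' => by
    classical
    rw [MonoidAlgebra.coeff_single, Finsupp.single_apply]
    split_ifs <;> norm_num, by
    rw [MonoidAlgebra.coeff_single, Finsupp.sum_single_index rfl]⟩

lemma cc_mem (r : unitInterval) (x y : PDist M) :
    (∀ m, 0 ≤ ((r : ℝ) • x.1 + (1 - (r : ℝ)) • y.1).coeff m) ∧
      ((r : ℝ) • x.1 + (1 - (r : ℝ)) • y.1).coeff.sum (fun _ r => r) = 1 := by
  refine ⟨fun m => ?_, ?_⟩
  · rw [MonoidAlgebra.coeff_add, Finsupp.add_apply, MonoidAlgebra.coeff_smul_apply,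
      MonoidAlgebra.coeff_smul_apply]
    exact add_nonneg (mul_nonneg r.2.1 (x.2.1 m)) (mul_nonneg (sub_nonneg.mpr r.2.2) (y.2.1 m))
  · have hx := x.2.2
    have hy := y.2.2
    rw [← aug_eq] at hx hy ⊢
    rw [map_add, map_smul, map_smul, hx, hy]
    simp

noncomputable instance : ConvexMonoid (PDist M) where
  mul x y := ⟨x.1 * y.1, mul_nonneg' x.2.1 y.2.1, by
    have hx := x.2.2
    have hy := y.2.2
    rw [← aug_eq] at hx hy ⊢
    rw [map_mul, hx, hy, mul_one]⟩
  one := ⟨1, (PDist.pure 1).2⟩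
  mul_assoc x y z := Subtype.ext (mul_assoc _ _ _)
  one_mul x := Subtype.ext (one_mul _)
  mul_one x := Subtype.ext (mul_one _)
  cc r x y := ⟨(r : ℝ) • x.1 + (1 - (r : ℝ)) • y.1, cc_mem r x y⟩
  cc_one x y := Subtype.ext (by simp)
  cc_self r x := Subtype.ext (by
    change (r : ℝ) • x.1 + (1 - (r : ℝ)) • x.1 = x.1
    rw [← add_smul]; simp)
  cc_comm r x y := Subtype.ext (by
    change (r : ℝ) • x.1 + (1 - (r : ℝ)) • y.1 =
      ((unitInterval.symm r : unitInterval) : ℝ) • y.1 +
        (1 - ((unitInterval.symm r : unitInterval) : ℝ)) • x.1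
    rw [unitInterval.coe_symm_eq, sub_sub_cancel, add_comm])
  cc_assoc p q r s x y z h1 h2 := Subtype.ext (by
    change (p : ℝ) • ((q : ℝ) • x.1 + (1 - (q : ℝ)) • y.1) + (1 - (p : ℝ)) • z.1 =
      (r : ℝ) • x.1 + (1 - (r : ℝ)) • ((s : ℝ) • y.1 + (1 - (s : ℝ)) • z.1)
    have h3 : (1 - (r : ℝ)) * (1 - s) = 1 - p := by
      have : (1 - (r : ℝ)) * (1 - s) = 1 - r - (1 - (r : ℝ)) * s := by ring
      rw [this, h2, h1]; ring
    rw [smul_add, smul_add, smul_smul, smul_smul, smul_smul, smul_smul, h2, h3, ← h1, add_assoc])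
  mul_cc r x y z := Subtype.ext (by
    change x.1 * ((r : ℝ) • y.1 + (1 - (r : ℝ)) • z.1) =
      (r : ℝ) • (x.1 * y.1) + (1 - (r : ℝ)) • (x.1 * z.1)
    rw [mul_add, mul_smul_comm, mul_smul_comm])
  cc_mul r x y z := Subtype.ext (by
    change ((r : ℝ) • x.1 + (1 - (r : ℝ)) • y.1) * z.1 =
      (r : ℝ) • (x.1 * z.1) + (1 - (r : ℝ)) • (y.1 * z.1)
    rw [add_mul, smul_mul_assoc, smul_mul_assoc])

lemma val_mul (x y : PDist M) : (x * y).1 = x.1 * y.1 := rfl
lemma val_one : (1 : PDist M).1 = 1 := rfl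
lemma val_cc (r : unitInterval) (x y : PDist M) :
    (cc r x y).1 = (r : ℝ) • x.1 + (1 - (r : ℝ)) • y.1 := rfl
lemma pure_one : PDist.pure (1 : M) = 1 := rfl
lemma pure_mul (a b : M) : PDist.pure (a * b) = PDist.pure a * PDist.pure b := by
  apply Subtype.ext
  rw [val_mul]
  unfold PDist.pure
  simp [MonoidAlgebra.single_mul_single]

/-- Induction principle: `D(M)` is generated by `M` under convex combinations. -/
lemma PDist.induction {P : PDist M → Prop} (h1 : ∀ m, P (PDist.pure m))
    (h2 : ∀ r x y, P x → P y → P (cc r x y)) (x : PDist M) : P x := by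
  have hc : Convex ℝ {x : MonoidAlgebra ℝ M | ∃ h, P ⟨x, h⟩} := by
    rintro x ⟨hx, hx'⟩ y ⟨hy, hy'⟩ a b ha hb hab
    have hb' : b = 1 - a := by linarith
    subst hb'
    exact ⟨cc_mem ⟨a, ha, by linarith⟩ ⟨x, hx⟩ ⟨y, hy⟩,
      h2 ⟨a, ha, by linarith⟩ ⟨x, hx⟩ ⟨y, hy⟩ hx' hy'⟩
  have h3 : ∑ m ∈ x.1.coeff.support, x.1.coeff m • (PDist.pure m).1 ∈
      {x : MonoidAlgebra ℝ M | ∃ h, P ⟨x, h⟩} :=
    hc.sum_mem (fun m _ => x.2.1 m) x.2.2 (fun m _ => ⟨_, h1 m⟩)
  have h4 : ∑ m ∈ x.1.coeff.support, x.1.coeff m • (PDist.pure m).1 = x.1 := by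
    conv_rhs => rw [← MonoidAlgebra.sum_coeff_single x.1]
    apply Finset.sum_congr rfl
    intro m _
    unfold PDist.pure
    simp
  rw [h4] at h3
  obtain ⟨h, hP⟩ := h3
  exact hP

end

/-- The congruence generated by a set of pairs. -/
def GenCong {M : Type} [ConvexMonoid M] (R : Set (M × M)) (x y : M) : Prop :=
  ∀ C : Cong M, (∀ p ∈ R, C.r p.1 p.2) → C.r x y

/-- A convex monoid `M` is finitely presentable if, for some finite set `G` and some finite set `R`
of pairs of elements of the free convex monoid `D(G*)` on `G`, it is isomorphic to the quotient of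
`D(G*)` by the congruence generated by `R`, i.e. it is the image of a morphism whose kernel is this
congruence. -/
def FinPres (M : Type) [ConvexMonoid M] : Prop :=
  ∃ (G : Type) (_ : Finite G) (R : Set (PDist (FreeMonoid G) × PDist (FreeMonoid G))),
    R.Finite ∧ ∃ φ : PDist (FreeMonoid G) → M, IsHom φ ∧ Function.Surjective φ ∧
      ∀ μ ν, φ μ = φ ν ↔ GenCong R μ ν

/-- The affine extension of `L : M → ℝ`. -/
noncomputable def hat {M : Type} [Monoid M] (L : M → ℝ) (μ : PDist M) : ℝ :=
  μ.1.coeff.sum fun w r => r * L w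

lemma hat_cc {M : Type} [Monoid M] (L : M → ℝ) (r : unitInterval) (μ ν : PDist M) :
    hat L (cc r μ ν) = r * hat L μ + (1 - r) * hat L ν := by
  unfold hat
  rw [val_cc, MonoidAlgebra.coeff_add, MonoidAlgebra.coeff_smul, MonoidAlgebra.coeff_smul,
    Finsupp.sum_add_index' (by simp) (by intros; ring), Finsupp.sum_smul_index' (by simp),
    Finsupp.sum_smul_index' (by simp), Finsupp.mul_sum, Finsupp.mul_sum]
  simp only [smul_eq_mul, mul_assoc]

/-- The syntactic congruence of `L`. -/
noncomputable def synCong {S : Type} (L : FreeMonoid S → ℝ) : Cong (PDist (FreeMonoid S)) where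
  r μ ν := ∀ x y : FreeMonoid S, hat L (PDist.pure x * μ * PDist.pure y) =
    hat L (PDist.pure x * ν * PDist.pure y)
  equiv := ⟨fun _ _ _ => rfl, fun h x y => (h x y).symm, fun h1 h2 x y => (h1 x y).trans (h2 x y)⟩
  mul := by
    intro a b c d h1 h2 x y
    have key1 : ∀ u : PDist (FreeMonoid S), ∀ x y : FreeMonoid S,
        hat L (PDist.pure x * (a * u) * PDist.pure y) =
        hat L (PDist.pure x * (b * u) * PDist.pure y) := by
      intro u
      refine PDist.induction (P := fun u => ∀ x y : FreeMonoid S,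
        hat L (PDist.pure x * (a * u) * PDist.pure y) =
        hat L (PDist.pure x * (b * u) * PDist.pure y)) ?_ ?_ u
      · intro m x y
        have h := h1 x (m * y)
        simp only [pure_mul, mul_assoc] at h ⊢
        exact h
      · intro r u v hu hv x y
        rw [ConvexMonoid.mul_cc, ConvexMonoid.mul_cc, ConvexMonoid.mul_cc, ConvexMonoid.mul_cc,
          ConvexMonoid.cc_mul, ConvexMonoid.cc_mul, hat_cc, hat_cc, hu, hv]
    have key2 : ∀ u : PDist (FreeMonoid S), ∀ x y : FreeMonoid S,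
        hat L (PDist.pure x * (u * c) * PDist.pure y) =
        hat L (PDist.pure x * (u * d) * PDist.pure y) := by
      intro u
      refine PDist.induction (P := fun u => ∀ x y : FreeMonoid S,
        hat L (PDist.pure x * (u * c) * PDist.pure y) =
        hat L (PDist.pure x * (u * d) * PDist.pure y)) ?_ ?_ u
      · intro m x y
        have h := h2 (x * m) y
        simp only [pure_mul, mul_assoc] at h ⊢
        exact h
      · intro r u v hu hv x y
        rw [ConvexMonoid.cc_mul, ConvexMonoid.cc_mul, ConvexMonoid.mul_cc, ConvexMonoid.mul_cc,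
          ConvexMonoid.cc_mul, ConvexMonoid.cc_mul, hat_cc, hat_cc, hu, hv]
    exact (key1 c x y).trans (key2 b x y)
  conv := by
    intro a b c d t h1 h2 x y
    rw [ConvexMonoid.mul_cc, ConvexMonoid.mul_cc, ConvexMonoid.cc_mul, ConvexMonoid.cc_mul,
      hat_cc, hat_cc, h1, h2]

/-- The syntactic convex monoid of `L`. -/
abbrev Syn {S : Type} (L : FreeMonoid S → ℝ) : Type := (synCong L).Quot

/-- Probabilistic finite automata over the alphabet `S`. -/
structure PFA (S : Type) where
  /-- states -/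
  Q : Type
  fin : Fintype Q
  /-- initial distribution -/
  init : Q → ℝ
  init_nonneg : ∀ q, 0 ≤ init q
  init_sum : ∑ q, init q = 1
  /-- transition distributions -/
  tr : Q → S → Q → ℝ
  tr_nonneg : ∀ q a q', 0 ≤ tr q a q'
  tr_sum : ∀ q a, ∑ q', tr q a q' = 1
  /-- output map -/
  out : Q → ℝ
  out_mem : ∀ q, 0 ≤ out q ∧ out q ≤ 1

/-- The distribution of the state after a random run on a word, started from the distribution
`d`. -/
noncomputable def PFA.run {S : Type} (A : PFA S) : (A.Q → ℝ) → List S → (A.Q → ℝ)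
  | d, [] => d
  | d, a :: w => haveI := A.fin; A.run (fun q' => ∑ q, d q * A.tr q a q') w

/-- The probabilistic language computed by a PFA: the expected output. -/
noncomputable def PFA.lang {S : Type} (A : PFA S) (w : FreeMonoid S) : ℝ :=
  haveI := A.fin
  ∑ q, A.run A.init (FreeMonoid.toList w) q * A.out q

end Pool.Agent.Q312.ConvMon
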