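import Mathlib

/-!
Guessable and strongly guessable functions (weighted automata, active learning).
Definitions follow the problem MP_2c9be0_lc.
-/

namespace Pool.Agent.Q312.Guess

open Finset

/-- A weighted automaton over the semiring `S` and alphabet `A` with a finite state set. -/
structure WA (S : Type) [Semiring S] (A : Type) where
  /-- number of states -/
  n : ℕ
  /-- initial weights -/
  init : Fin n → S
  /-- transition matrices -/
  trans : A → Matrix (Fin n) (Fin n) S
  /-- final weights -/
  final : Fin n → S

/-- The function computed by a weighted automaton: `I · M(a₁) ⋯ M(aₖ) · F`. -/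
def WA.val {S : Type} [Semiring S] {A : Type} (M : WA S A) (w : List A) : S :=
  ∑ i, ∑ j, M.init i * (w.map M.trans).prod i j * M.final j

variable {S : Type} [Semiring S] {A : Type} [DecidableEq A]

/-- `Lam f Q T` is the set `Λ_{Q,T}` : the first component is `(λ_q)_{q ∈ Q}`, the second one is
`(λ_{q,a,p})_{q,p ∈ Q, a ∈ Σ}`. -/
def Lam (f : List A → S) (Q : Finset (List A)) (T : Set (List A)) :
    Set ((Q → S) × (Q → A → Q → S)) :=
  {l | (∀ t ∈ T, f t = ∑ q : Q, l.1 q * f (q.1 ++ t)) ∧
    ∀ (q : Q) (a : A), ∀ t ∈ T, f (q.1 ++ [a] ++ t) = ∑ p : Q, l.2 q a p * f (p.1 ++ t)}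

/-- `f` is guessable: `Λ_{Q,T} = Λ_Q ≠ ∅` for some finite nonempty `Q` and finite `T`. -/
def Guessable (f : List A → S) : Prop :=
  ∃ Q : Finset (List A), Q.Nonempty ∧ ∃ T : Finset (List A),
    Lam f Q (T : Set (List A)) = Lam f Q Set.univ ∧ (Lam f Q Set.univ).Nonempty

/-- `f` is strongly guessable: guessable, and for every finite nonempty `Q` some finite `T` has
`Λ_{Q,T} = Λ_Q`. -/
def StronglyGuessable (f : List A → S) : Prop :=
  Guessable f ∧ ∀ Q : Finset (List A), Q.Nonempty → ∃ T : Finset (List A),
    Lam f Q (T : Set (List A)) = Lam f Q Set.univ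

/-- `Gam f Q T` is the set `Γ_{Q,T}` (columns, scalars on the right). -/
def Gam (f : List A → S) (Q : Set (List A)) (T : Finset (List A)) :
    Set ((T → S) × (T → A → T → S)) :=
  {g | (∀ q ∈ Q, f q = ∑ t : T, f (q ++ t.1) * g.1 t) ∧
    ∀ (t : T) (a : A), ∀ q ∈ Q, f (q ++ ([a] ++ t.1)) = ∑ s : T, f (q ++ s.1) * g.2 s a t}

/-- `f` is co-guessable. -/
def CoGuessable (f : List A → S) : Prop :=
  ∃ T : Finset (List A), T.Nonempty ∧ ∃ Q : Finset (List A),
    Gam f (Q : Set (List A)) T = Gam f Set.univ T ∧ (Gam f Set.univ T).Nonempty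

/-- `f` is strongly co-guessable. -/
def StronglyCoGuessable (f : List A → S) : Prop :=
  CoGuessable f ∧ ∀ T : Finset (List A), T.Nonempty → ∃ Q : Finset (List A),
    Gam f (Q : Set (List A)) T = Gam f Set.univ T

/-! ### The semiring -/

/-- Points: `none` is an extra base point, `some w` a word over `Bool`. -/
abbrev X : Type := Option (List Bool)

/-- The structural property. (1) If `R` sends the empty word to a word `p` of length at most one,
then it sends every word `w` to `p ++ w`. (2) A point `some w` is only related to points `some w'`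
obtained by replacing a prefix `s` of `w` by a word, where either `s = []`, or `s = [true]` and the
replacement has length at least two; and then the same replacement is possible on all shorter
words. -/
def Good (R : X → X → Prop) : Prop :=
  (∀ p : List Bool, p.length ≤ 1 → R (some []) (some p) → ∀ w, R (some w) (some (p ++ w))) ∧
  ∀ w y, R (some w) y → ∃ s s' v, (s = [] ∨ (s = [true] ∧ 2 ≤ s'.length)) ∧ w = s ++ v ∧
    y = some (s' ++ v) ∧ ∀ v1, v1 <+: v → R (some (s ++ v1)) (some (s' ++ v1))

/-- The semiring of good relations, with union and composition. -/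
@[ext] structure GR : Type where
  /-- the relation -/
  rel : X → X → Prop
  /-- it is good -/
  good : Good rel

namespace GR

instance : Zero GR := ⟨⟨fun _ _ => False, fun _ _ h => h.elim, fun _ _ h => h.elim⟩⟩

instance : One GR := ⟨⟨fun x y => x = y, by
  constructor
  · intro p _ h w
    obtain rfl : [] = p := Option.some_inj.mp h
    rfl
  · exact fun w _ h => ⟨[], [], w, Or.inl rfl, rfl, h.symm, fun _ _ => rfl⟩⟩⟩

instance : Add GR := ⟨fun R T => ⟨fun x y => R.rel x y ∨ T.rel x y, by
  constructor
  · rintro p hp (h | h) w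
    · exact Or.inl (R.good.1 p hp h w)
    · exact Or.inr (T.good.1 p hp h w)
  · rintro w y (h | h)
    · obtain ⟨s, s', v, h1, h3, h4, h5⟩ := R.good.2 w y h
      exact ⟨s, s', v, h1, h3, h4, fun v1 hv => Or.inl (h5 v1 hv)⟩
    · obtain ⟨s, s', v, h1, h3, h4, h5⟩ := T.good.2 w y h
      exact ⟨s, s', v, h1, h3, h4, fun v1 hv => Or.inr (h5 v1 hv)⟩⟩⟩

/-- composition: first the right factor, then the left factor -/
def comp (R T : X → X → Prop) : X → X → Prop := fun x z => ∃ y, T x y ∧ R y z

lemma good_comp {R T : X → X → Prop} (hR : Good R) (hT : Good T) : Good (comp R T) := by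
  constructor
  · rintro p hp ⟨y, h1, h2⟩ w
    obtain ⟨s, s', v, hs, he, rfl, hv⟩ := hT.2 _ y h1
    -- the word is empty, so `s = v = []`
    obtain ⟨rfl, rfl⟩ := List.append_eq_nil_iff.mp he.symm
    simp only [List.append_nil] at h1 h2 hv
    obtain ⟨t, t', u, ht, he', hp', hu⟩ := hR.2 _ _ h2
    obtain rfl : p = t' ++ u := Option.some_inj.mp hp'
    rcases ht with rfl | ⟨rfl, ht⟩
    · simp only [List.nil_append] at he' hu
      subst he'
      have h3 : R (some []) (some t') := by simpa using hu [] List.nil_prefix
      rw [List.length_append] at hp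
      have h4 := hR.1 t' (by omega) h3
      have h5 := hT.1 s' (by omega) h1
      refine ⟨some (s' ++ w), h5 w, ?_⟩
      simpa using h4 (s' ++ w)
    · rw [List.length_append] at hp; omega
  · rintro w z ⟨y, h1, h2⟩
    obtain ⟨s, s', v, hs, rfl, rfl, hv⟩ := hT.2 w y h1
    obtain ⟨t, t', u, ht, he, rfl, hu⟩ := hR.2 _ z h2
    rcases List.append_eq_append_iff.mp he with ⟨a, ha1, ha2⟩ | ⟨a, ha1, ha2⟩
    · -- `t = s' ++ a`, `v = a ++ u`
      subst ha2
      rcases a with _ | ⟨b, a⟩
      · -- same as the other case with empty word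
        simp only [List.append_nil] at ha1
        subst ha1
        refine ⟨s, t', u, ?_, by simp, by simp, fun v1 hv1 => ?_⟩
        · rcases hs with hs | ⟨hs, hs'⟩
          · exact Or.inl hs
          · rcases ht with rfl | ⟨rfl, ht⟩
            · simp at hs'
            · exact Or.inr ⟨hs, ht⟩
        exact ⟨some (t ++ v1), hv v1 (by simpa using hv1), hu v1 hv1⟩
      · -- then `s' = []`, `t = [true]`
        have ht' : t = [true] ∧ 2 ≤ t'.length := by
          rcases ht with ht | ht
          · rw [ht] at ha1; simp at ha1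
          · exact ht
        have hs' : s' = [] := by
          rw [ht'.1] at ha1
          rcases s' with _ | ⟨c, s'⟩
          · rfl
          · simp at ha1
        subst hs'
        have hs0 : s = [] := by
          rcases hs with hs | ⟨_, hs⟩
          · exact hs
          · simp at hs
        subst hs0
        simp only [List.nil_append] at ha1
        rw [← ha1] at hv ⊢
        refine ⟨t, t', u, Or.inr ht', by simp, rfl, fun v1 hv1 => ?_⟩
        refine ⟨some (t ++ v1), ?_, hu v1 hv1⟩
        have := hv (t ++ v1) ((List.prefix_append_right_inj t).mpr hv1)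
        simpa using this
    · -- `s' = t ++ a`, `u = a ++ v`
      subst ha1 ha2
      refine ⟨s, t' ++ a, v, ?_, rfl, by simp, fun v1 hv1 => ?_⟩
      · rcases hs with hs | ⟨hs, hs'⟩
        · exact Or.inl hs
        · refine Or.inr ⟨hs, ?_⟩
          rw [List.length_append] at hs' ⊢
          rcases ht with rfl | ⟨rfl, ht⟩
          · simp only [List.length_nil] at hs'; omega
          · omega
      · refine ⟨some (t ++ a ++ v1), hv v1 hv1, ?_⟩
        have := hu (a ++ v1) ((List.prefix_append_right_inj a).mpr hv1)
        simpa using this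

instance : Mul GR := ⟨fun R T => ⟨comp R.rel T.rel, good_comp R.good T.good⟩⟩

@[simp] lemma zero_rel (x y : X) : (0 : GR).rel x y ↔ False := Iff.rfl
@[simp] lemma one_rel (x y : X) : (1 : GR).rel x y ↔ x = y := Iff.rfl
@[simp] lemma add_rel (R T : GR) (x y : X) : (R + T).rel x y ↔ R.rel x y ∨ T.rel x y := Iff.rfl
@[simp] lemma mul_rel (R T : GR) (x z : X) : (R * T).rel x z ↔ ∃ y, T.rel x y ∧ R.rel y z := Iff.rfl

instance : Semiring GR where
  add_assoc R T U := by ext x y; simp [or_assoc]
  zero_add R := by ext x y; simp
  add_zero R := by ext x y; simp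
  add_comm R T := by ext x y; simp [or_comm]
  nsmul := nsmulRec
  left_distrib R T U := by ext x y; simp [or_and_right, exists_or]
  right_distrib R T U := by ext x y; simp [and_or_left, exists_or]
  zero_mul R := by ext x y; simp
  mul_zero R := by ext x y; simp
  mul_assoc R T U := by
    ext x y
    simp only [mul_rel]
    constructor
    · rintro ⟨a, h1, b, h2, h3⟩; exact ⟨b, ⟨a, h1, h2⟩, h3⟩
    · rintro ⟨b, ⟨a, h1, h2⟩, h3⟩; exact ⟨a, h1, b, h2, h3⟩
  one_mul R := by ext x y; simp
  mul_one R := by ext x y; simp

end GR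

/-- adding the letter `c` in front -/
def lett (c : Bool) : GR := ⟨fun x y => ∃ w, x = some w ∧ y = some (c :: w), by
  constructor
  · rintro p _ ⟨w', h1, h2⟩ w
    obtain rfl : [] = w' := Option.some_inj.mp h1
    obtain rfl : p = [c] := Option.some_inj.mp h2
    exact ⟨w, rfl, rfl⟩
  · rintro w y ⟨w', h1, h2⟩
    obtain rfl : w = w' := Option.some_inj.mp h1
    exact ⟨[], [c], w, Or.inl rfl, rfl, h2, fun v1 _ => ⟨_, rfl, rfl⟩⟩⟩

/-- the truncated map `true :: v ↦ true :: false :: v`, only for `|v| ≤ n` -/
def trunc (n : ℕ) : GR := ⟨fun x y => ∃ v, v.length ≤ n ∧ x = some (true :: v) ∧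
    y = some (true :: false :: v), by
  constructor
  · rintro p _ ⟨v, _, h2, _⟩
    simp at h2
  · rintro w y ⟨v, h1, h2, h3⟩
    obtain rfl : w = true :: v := Option.some_inj.mp h2
    refine ⟨[true], [true, false], v, Or.inr ⟨rfl, by simp⟩, rfl, h3, fun v1 hv => ?_⟩
    exact ⟨v1, hv.length_le.trans h1, rfl, rfl⟩⟩

/-- the vector `none ↦ []` -/
def start : GR := ⟨fun x y => x = none ∧ y = some [], by
  constructor
  · rintro p _ ⟨h1, _⟩; simp at h1
  · rintro w y ⟨h1, _⟩; simp at h1⟩

/-- The function: `f w` is the relation `{(none, w)}`. -/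
def f (w : List Bool) : GR := (w.map lett).prod * start

lemma f_nil : f [] = start := by simp [f]

lemma f_cons (c : Bool) (w : List Bool) : f (c :: w) = lett c * f w := by
  simp [f, mul_assoc]

lemma f_rel (w : List Bool) (x y : X) : (f w).rel x y ↔ x = none ∧ y = some w := by
  induction w generalizing x y with
  | nil => rw [f_nil]; rfl
  | cons c w ih =>
    rw [f_cons, GR.mul_rel]
    constructor
    · rintro ⟨z, h1, w', h2, h3⟩
      obtain ⟨rfl, rfl⟩ := (ih _ _).mp h1
      obtain rfl : w = w' := Option.some_inj.mp h2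
      exact ⟨rfl, h3⟩
    · rintro ⟨rfl, rfl⟩
      exact ⟨some w, (ih _ _).mpr ⟨rfl, rfl⟩, w, rfl, rfl⟩

lemma mul_f_rel (R : GR) (w : List Bool) (x z : X) :
    (R * f w).rel x z ↔ x = none ∧ R.rel (some w) z := by
  rw [GR.mul_rel]
  constructor
  · rintro ⟨y, h1, h2⟩
    obtain ⟨rfl, rfl⟩ := (f_rel w _ _).mp h1
    exact ⟨rfl, h2⟩
  · rintro ⟨rfl, h⟩
    exact ⟨some w, (f_rel w _ _).mpr ⟨rfl, rfl⟩, h⟩

lemma f_eq_iff (R : GR) (w w' : List Bool) :
    f w' = R * f w ↔ ∀ z, R.rel (some w) z ↔ z = some w' := by
  constructor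
  · intro h z
    have := mul_f_rel R w none z
    rw [← h, f_rel] at this
    simpa using this.symm
  · intro h
    ext x z
    rw [f_rel, mul_f_rel, h]

/-- Key rigidity: an element that acts on `[]` and on `[true]` as adding the prefix `p` (where
`|p| ≤ 1`) acts so on all words. -/
lemma rigid (R : GR) (p : List Bool) (hp : p.length ≤ 1)
    (h0 : f p = R * f []) (h1 : f (p ++ [true]) = R * f [true]) (w : List Bool) :
    f (p ++ w) = R * f w := by
  rw [f_eq_iff] at h0 h1 ⊢
  intro z
  constructor
  · intro hz
    obtain ⟨s, s', v, hs, rfl, rfl, hv⟩ := R.good.2 w z hz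
    have h2 := hv [] List.nil_prefix
    simp only [List.append_nil] at h2
    rcases hs with rfl | ⟨rfl, _⟩
    · have := (h0 _).mp h2
      simp only [Option.some.injEq] at this
      rw [this]; simp
    · have := (h1 _).mp h2
      simp only [Option.some.injEq] at this
      rw [this]; simp
  · rintro rfl
    exact R.good.1 p hp ((h0 _).mpr rfl) w

/-- The weighted automaton (with one state) computing `f`. -/
def wa : WA GR Bool where
  n := 1
  init := fun _ => 1
  trans := fun c => Matrix.of fun _ _ => lett c
  final := fun _ => start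

lemma prod_one {S : Type} [Semiring S] (m : Bool → Matrix (Fin 1) (Fin 1) S) (w : List Bool) :
    (w.map m).prod 0 0 = (w.map (fun c => m c 0 0)).prod := by
  induction w with
  | nil => simp
  | cons c w ih =>
    rw [List.map_cons, List.prod_cons, Matrix.mul_apply, Fin.sum_univ_one, ih]
    simp

lemma wa_val (w : List Bool) : wa.val w = f w := by
  change ∑ i : Fin 1, ∑ j : Fin 1, (1 : GR) *
    (w.map (fun c => (Matrix.of fun (_ _ : Fin 1) => lett c))).prod i j * start = f w
  rw [Fin.sum_univ_one, Fin.sum_univ_one, prod_one]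
  simp [f]

theorem guessable_f : Guessable f := by
  refine ⟨{[]}, by simp, {[], [true]}, ?_, ?_⟩
  · apply Set.Subset.antisymm
    · rintro ⟨l, m⟩ ⟨h1, h2⟩
      have key1 : ∀ t ∈ ({[], [true]} : Finset (List Bool)),
          f t = l ⟨[], by simp⟩ * f t := by
        intro t ht
        have := h1 t (by simpa using ht)
        rw [Fintype.sum_eq_single (⟨[], by simp⟩ : ({[]} : Finset (List Bool)))] at this
        · simpa using this
        · rintro ⟨x, hx⟩ hne
          exact absurd (Subtype.ext (by simpa using hx)) hne
      have key2 : ∀ a, ∀ t ∈ ({[], [true]} : Finset (List Bool)),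
          f ([a] ++ t) = m ⟨[], by simp⟩ a ⟨[], by simp⟩ * f t := by
        intro a t ht
        have := h2 ⟨[], by simp⟩ a t (by simpa using ht)
        rw [Fintype.sum_eq_single (⟨[], by simp⟩ : ({[]} : Finset (List Bool)))] at this
        · simpa using this
        · rintro ⟨x, hx⟩ hne
          exact absurd (Subtype.ext (by simpa using hx)) hne
      refine ⟨fun t _ => ?_, ?_⟩
      · rw [Fintype.sum_eq_single (⟨[], by simp⟩ : ({[]} : Finset (List Bool)))]
        · have := rigid (l ⟨[], by simp⟩) [] (by simp) (key1 [] (by simp))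
            (by simpa using key1 [true] (by simp)) t
          simpa using this
        · rintro ⟨x, hx⟩ hne
          exact absurd (Subtype.ext (by simpa using hx)) hne
      · rintro ⟨q, hq⟩ a t _
        obtain rfl : q = [] := by simpa using hq
        rw [Fintype.sum_eq_single (⟨[], by simp⟩ : ({[]} : Finset (List Bool)))]
        · have := rigid (m ⟨[], by simp⟩ a ⟨[], by simp⟩) [a] (by simp)
            (by simpa using key2 a [] (by simp)) (key2 a [true] (by simp)) t
          simpa using this
        · rintro ⟨x, hx⟩ hne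
          exact absurd (Subtype.ext (by simpa using hx)) hne
    · rintro ⟨l, m⟩ ⟨h1, h2⟩
      exact ⟨fun t _ => h1 t trivial, fun q a t _ => h2 q a t trivial⟩
  · refine ⟨(fun _ => 1, fun _ a _ => lett a), fun t _ => ?_, ?_⟩
    · rw [Fintype.sum_eq_single (⟨[], by simp⟩ : ({[]} : Finset (List Bool)))]
      · simp
      · rintro ⟨x, hx⟩ hne
        exact absurd (Subtype.ext (by simpa using hx)) hne
    · rintro ⟨q, hq⟩ a t _
      obtain rfl : q = [] := by simpa using hq
      rw [Fintype.sum_eq_single (⟨[], by simp⟩ : ({[]} : Finset (List Bool)))]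
      · simp [f_cons]
      · rintro ⟨x, hx⟩ hne
        exact absurd (Subtype.ext (by simpa using hx)) hne

/-- the set of words used to defeat strong guessability -/
def Q2 : Finset (List Bool) := {[], [true]}

lemma mem_nil : ([] : List Bool) ∈ Q2 := by simp [Q2]
lemma mem_b : [true] ∈ Q2 := by simp [Q2]

lemma sum_Q2 (g : Q2 → GR) : ∑ q : Q2, g q = g ⟨[], mem_nil⟩ + g ⟨[true], mem_b⟩ := by
  have : (Finset.univ : Finset Q2) = {⟨[], mem_nil⟩, ⟨[true], mem_b⟩} := by
    ext ⟨x, hx⟩
    simp only [Q2, Finset.mem_insert, Finset.mem_singleton] at hx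
    simp only [Finset.mem_univ, Finset.mem_insert, Finset.mem_singleton, Subtype.mk.injEq,
      true_iff]
    exact hx
  rw [this, Finset.sum_pair]
  intro h
  simp at h

/-- the truncated coefficients -/
noncomputable def coef (n : ℕ) : Q2 → Bool → Q2 → GR := fun q a p =>
  if q.1 = [] then (if p.1 = [] then lett a else 0)
  else if p.1 = [] then 0 else if a = true then lett true else trunc n

lemma trunc_mul_f (n : ℕ) (v : List Bool) (hv : v.length ≤ n) :
    f (true :: false :: v) = trunc n * f (true :: v) := by
  rw [f_eq_iff]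
  intro z
  constructor
  · rintro ⟨v', _, h2, h3⟩
    have := Option.some_inj.mp h2
    simp only [List.cons.injEq, true_and] at this
    rw [h3, this]
  · rintro rfl
    exact ⟨v, hv, rfl, rfl⟩

lemma trunc_mul_f_ne (n : ℕ) (v : List Bool) (hv : n < v.length) :
    f (true :: false :: v) ≠ trunc n * f (true :: v) := by
  intro h
  rw [f_eq_iff] at h
  obtain ⟨v', h1, h2, _⟩ := (h _).mpr rfl
  have := Option.some_inj.mp h2
  simp only [List.cons.injEq, true_and] at this
  rw [← this] at h1
  omega

theorem not_strong_f : ¬ StronglyGuessable f := by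
  rintro ⟨_, h⟩
  obtain ⟨T, hT⟩ := h Q2 ⟨[], mem_nil⟩
  obtain ⟨n, hn⟩ : ∃ n, ∀ t ∈ T, t.length ≤ n :=
    ⟨T.sup List.length, fun t ht => Finset.le_sup (f := List.length) ht⟩
  have hmem : ((fun q => if q.1 = [] then 1 else 0), coef n) ∈ Lam f Q2 (T : Set (List Bool)) := by
    constructor
    · intro t _
      rw [sum_Q2]; simp
    · rintro ⟨q, hq⟩ a t ht
      rw [sum_Q2]
      simp only [Q2, Finset.mem_insert, Finset.mem_singleton] at hq
      rcases hq with rfl | rfl
      · simp [coef, f_cons]
      · rcases a with _ | _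
        · simp only [coef]
          simp only [List.cons_append, List.nil_append, if_true, Bool.false_eq_true, if_false,
            reduceCtorEq, zero_mul, zero_add]
          exact trunc_mul_f n t (hn t ht)
        · simp only [coef]
          simp only [List.cons_append, List.nil_append, if_true, if_false,
            reduceCtorEq, zero_mul, zero_add]
          exact f_cons _ _
  rw [hT] at hmem
  have := hmem.2 ⟨[true], mem_b⟩ false (List.replicate (n + 1) true) trivial
  rw [sum_Q2] at this
  simp only [coef, List.cons_append, List.nil_append, if_true, Bool.false_eq_true, if_false,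
    reduceCtorEq, zero_mul, zero_add] at this
  exact trunc_mul_f_ne n _ (by simp) this

/-! ### The dual function -/

/-- The dual function, over the opposite semiring. -/
def g (w : List Bool) : GRᵐᵒᵖ := MulOpposite.op (f w.reverse)

/-- The weighted automaton (with one state) computing `g`. -/
def wa' : WA GRᵐᵒᵖ Bool where
  n := 1
  init := fun _ => MulOpposite.op start
  trans := fun c => Matrix.of fun _ _ => MulOpposite.op (lett c)
  final := fun _ => 1

lemma wa'_val (w : List Bool) : wa'.val w = g w := by
  change ∑ i : Fin 1, ∑ j : Fin 1, MulOpposite.op start *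
    (w.map (fun c => (Matrix.of fun (_ _ : Fin 1) => MulOpposite.op (lett c)))).prod i j *
      (1 : GRᵐᵒᵖ) = g w
  rw [Fin.sum_univ_one, Fin.sum_univ_one, prod_one]
  have h : ∀ w : List Bool, (w.map (fun c => MulOpposite.op (lett c))).prod =
      MulOpposite.op ((w.reverse.map lett).prod) := by
    intro w
    induction w with
    | nil => simp
    | cons c w ih => simp [ih]
  simp [g, f, h]

theorem coguessable_g : CoGuessable g := by
  refine ⟨{[]}, by simp, {[], [true]}, ?_, ?_⟩
  · apply Set.Subset.antisymm
    · rintro ⟨l, m⟩ ⟨h1, h2⟩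
      have key1 : ∀ t ∈ ({[], [true]} : Finset (List Bool)),
          g t = g t * l ⟨[], by simp⟩ := by
        intro t ht
        have := h1 t (by simpa using ht)
        rw [Fintype.sum_eq_single (⟨[], by simp⟩ : ({[]} : Finset (List Bool)))] at this
        · simpa using this
        · rintro ⟨x, hx⟩ hne
          exact absurd (Subtype.ext (by simpa using hx)) hne
      have key2 : ∀ a, ∀ t ∈ ({[], [true]} : Finset (List Bool)),
          g (t ++ [a]) = g t * m ⟨[], by simp⟩ a ⟨[], by simp⟩ := by
        intro a t ht
        have := h2 ⟨[], by simp⟩ a t (by simpa using ht)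
        rw [Fintype.sum_eq_single (⟨[], by simp⟩ : ({[]} : Finset (List Bool)))] at this
        · simpa using this
        · rintro ⟨x, hx⟩ hne
          exact absurd (Subtype.ext (by simpa using hx)) hne
      refine ⟨fun t _ => ?_, ?_⟩
      · rw [Fintype.sum_eq_single (⟨[], by simp⟩ : ({[]} : Finset (List Bool)))]
        · have k0 := congrArg MulOpposite.unop (key1 [] (by simp))
          have k1 := congrArg MulOpposite.unop (key1 [true] (by simp))
          simp only [g, MulOpposite.unop_op, MulOpposite.unop_mul] at k0 k1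
          have := rigid (l ⟨[], by simp⟩).unop [] (by simp) (by simpa using k0)
            (by simpa using k1) t.reverse
          apply MulOpposite.unop_injective
          simpa [g] using this
        · rintro ⟨x, hx⟩ hne
          exact absurd (Subtype.ext (by simpa using hx)) hne
      · rintro ⟨q, hq⟩ a t _
        obtain rfl : q = [] := by simpa using hq
        rw [Fintype.sum_eq_single (⟨[], by simp⟩ : ({[]} : Finset (List Bool)))]
        · have k0 := congrArg MulOpposite.unop (key2 a [] (by simp))
          have k1 := congrArg MulOpposite.unop (key2 a [true] (by simp))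
          simp only [g, MulOpposite.unop_op, MulOpposite.unop_mul] at k0 k1
          have := rigid (m ⟨[], by simp⟩ a ⟨[], by simp⟩).unop [a] (by simp)
            (by simpa using k0) (by simpa using k1) t.reverse
          apply MulOpposite.unop_injective
          simpa [g] using this
        · rintro ⟨x, hx⟩ hne
          exact absurd (Subtype.ext (by simpa using hx)) hne
    · rintro ⟨l, m⟩ ⟨h1, h2⟩
      exact ⟨fun t _ => h1 t trivial, fun q a t _ => h2 q a t trivial⟩
  · refine ⟨(fun _ => 1, fun _ a _ => MulOpposite.op (lett a)), fun t _ => ?_, ?_⟩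
    · rw [Fintype.sum_eq_single (⟨[], by simp⟩ : ({[]} : Finset (List Bool)))]
      · simp
      · rintro ⟨x, hx⟩ hne
        exact absurd (Subtype.ext (by simpa using hx)) hne
    · rintro ⟨q, hq⟩ a t _
      obtain rfl : q = [] := by simpa using hq
      rw [Fintype.sum_eq_single (⟨[], by simp⟩ : ({[]} : Finset (List Bool)))]
      · simp [g, f_cons]
      · rintro ⟨x, hx⟩ hne
        exact absurd (Subtype.ext (by simpa using hx)) hne

lemma sum_Q2' (g : Q2 → GRᵐᵒᵖ) : ∑ q : Q2, g q = g ⟨[], mem_nil⟩ + g ⟨[true], mem_b⟩ := by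
  have : (Finset.univ : Finset Q2) = {⟨[], mem_nil⟩, ⟨[true], mem_b⟩} := by
    ext ⟨x, hx⟩
    simp only [Q2, Finset.mem_insert, Finset.mem_singleton] at hx
    simp only [Finset.mem_univ, Finset.mem_insert, Finset.mem_singleton, Subtype.mk.injEq,
      true_iff]
    exact hx
  rw [this, Finset.sum_pair]
  intro h
  simp at h

theorem not_costrong_g : ¬ StronglyCoGuessable g := by
  rintro ⟨_, h⟩
  obtain ⟨T, hT⟩ := h Q2 ⟨[], mem_nil⟩
  obtain ⟨n, hn⟩ : ∃ n, ∀ t ∈ T, t.length ≤ n :=
    ⟨T.sup List.length, fun t ht => Finset.le_sup (f := List.length) ht⟩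
  have hmem : ((fun q => if q.1 = [] then 1 else 0), fun s a t => MulOpposite.op (coef n t a s)) ∈
      Gam g (T : Set (List Bool)) Q2 := by
    constructor
    · intro t _
      rw [sum_Q2']; simp
    · rintro ⟨q, hq⟩ a t ht
      rw [sum_Q2']
      simp only [Q2, Finset.mem_insert, Finset.mem_singleton] at hq
      rcases hq with rfl | rfl
      · simp [coef, g, f_cons]
      · rcases a with _ | _
        · simp only [coef, g]
          apply MulOpposite.unop_injective
          simp
          exact trunc_mul_f n t.reverse (by simpa using hn t ht)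
        · simp only [coef, g]
          apply MulOpposite.unop_injective
          simp
          exact f_cons _ _
  rw [hT] at hmem
  have := hmem.2 ⟨[true], mem_b⟩ false (List.replicate (n + 1) true) trivial
  rw [sum_Q2'] at this
  have := congrArg MulOpposite.unop this
  simp [coef, g] at this
  exact trunc_mul_f_ne n _ (by simp) this

end Pool.Agent.Q312.Guess
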