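import Mathlib

/-!
The ruler word as the unique word accepted by a family of three-state automata
(the bits of a binary counter).
-/

namespace Pool.Agent.Q312.Ruler

/-- one step of the automaton checking bit `i` on the letter `j` -/
def stp (i : ℕ) (b : Bool) (j : ℕ) : Option Bool :=
  if j < i then some b else if j = i then (if b then none else some true)
  else (if b then some false else none)

/-- run of the automaton checking bit `i` -/
def run (i : ℕ) : List ℕ → Option Bool → Option Bool
  | [], s => s
  | j :: u, s => run i u (s.bind fun b => stp i b j)

@[simp] lemma run_nil (i : ℕ) (s : Option Bool) : run i [] s = s := rfl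
@[simp] lemma run_cons (i j : ℕ) (u : List ℕ) (s : Option Bool) :
    run i (j :: u) s = run i u (s.bind fun b => stp i b j) := rfl

lemma run_append (i : ℕ) (u v : List ℕ) (s : Option Bool) :
    run i (u ++ v) s = run i v (run i u s) := by
  induction u generalizing s with
  | nil => rfl
  | cons j u ih => simp [ih]

@[simp] lemma run_none (i : ℕ) (u : List ℕ) : run i u none = none := by
  induction u with
  | nil => rfl
  | cons j u ih => simpa using ih

/-- The ruler word. -/
def W : ℕ → List ℕ
  | 0 => []
  | k + 1 => W k ++ k :: W k

lemma length_W (k : ℕ) : (W k).length = 2 ^ k - 1 := by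
  induction k with
  | zero => rfl
  | succ k ih =>
    rw [W, List.length_append, List.length_cons, ih, pow_succ]
    have := Nat.one_le_two_pow (n := k)
    omega

lemma W_lt (k : ℕ) : ∀ x ∈ W k, x < k := by
  induction k with
  | zero => simp [W]
  | succ k ih =>
    intro x hx
    simp only [W, List.mem_append, List.mem_cons] at hx
    rcases hx with h | rfl | h
    · exact (ih x h).trans (Nat.lt_succ_self k)
    · exact Nat.lt_succ_self _
    · exact (ih x h).trans (Nat.lt_succ_self k)

lemma run_low (k : ℕ) (u : List ℕ) (hu : ∀ x ∈ u, x < k) (s : Option Bool) :
    run k u s = s := by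
  induction u generalizing s with
  | nil => rfl
  | cons j u ih =>
    have h1 : j < k := hu j (by simp)
    rw [run_cons, ih (fun x hx => hu x (by simp [hx]))]
    rcases s with _ | b
    · rfl
    · simp [stp, h1]

lemma high_of_run_true (k : ℕ) (u : List ℕ) (hu : ∀ x ∈ u, x ≤ k)
    (h : run k u (some true) ≠ none) : ∀ x ∈ u, x < k := by
  induction u with
  | nil => simp
  | cons j u ih =>
    have h1 : j ≤ k := hu j (by simp)
    rcases Nat.lt_or_eq_of_le h1 with h2 | rfl
    · intro x hx
      rcases List.mem_cons.mp hx with rfl | hx
      · exact h2
      · refine ih (fun x hx => hu x (by simp [hx])) ?_ x hx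
        intro h3
        apply h
        rw [run_cons]
        simpa [stp, h2] using h3
    · exfalso
      apply h
      rw [run_cons]
      simp [stp]

lemma split_of_run (k : ℕ) (u : List ℕ) (hu : ∀ x ∈ u, x ≤ k)
    (h : run k u (some false) = some true) :
    ∃ u1 u2, u = u1 ++ k :: u2 ∧ (∀ x ∈ u1, x < k) ∧ ∀ x ∈ u2, x < k := by
  induction u with
  | nil => simp at h
  | cons j u ih =>
    have h1 : j ≤ k := hu j (by simp)
    rcases Nat.lt_or_eq_of_le h1 with h2 | rfl
    · obtain ⟨u1, u2, h3, h4, h5⟩ := ih (fun x hx => hu x (by simp [hx])) (by
        simpa [stp, h2] using h)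
      refine ⟨j :: u1, u2, by simp [h3], ?_, h5⟩
      intro x hx
      rcases List.mem_cons.mp hx with rfl | hx
      · exact h2
      · exact h4 x hx
    · refine ⟨[], u, rfl, by simp, high_of_run_true j u (fun x hx => hu x (by simp [hx])) ?_⟩
      rw [run_cons] at h
      have h3 : ((some false).bind fun b => stp j b j) = some true := by simp [stp]
      rw [h3] at h
      rw [h]; simp

/-- The ruler word is the only word over the letters `< k` which is accepted by all the automata
checking the bits `i < k`. -/
theorem unique (k : ℕ) (u : List ℕ) (hu : ∀ x ∈ u, x < k) :
    (∀ i < k, run i u (some false) = some true) ↔ u = W k := by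
  induction k generalizing u with
  | zero =>
    simp only [not_lt_zero, IsEmpty.forall_iff, implies_true, W, true_iff]
    rcases u with _ | ⟨x, u⟩
    · rfl
    · exact absurd (hu x (by simp)) (by simp)
  | succ k ih =>
    constructor
    · intro h
      obtain ⟨u1, u2, rfl, h1, h2⟩ := split_of_run k u (fun x hx => Nat.lt_succ_iff.mp (hu x hx))
        (h k (Nat.lt_succ_self k))
      have key : ∀ i < k, run i u1 (some false) = some true ∧
          run i u2 (some false) = some true := by
        intro i hi
        have h3 := h i (hi.trans (Nat.lt_succ_self k))
        rw [run_append, run_cons] at h3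
        have h4 : run i u1 (some false) = some true := by
          by_contra hne
          have : ((run i u1 (some false)).bind fun b => stp i b k) = none := by
            rcases hr : run i u1 (some false) with _ | b
            · rfl
            · rw [hr] at hne
              have hb : b = false := by
                rcases b with _ | _
                · rfl
                · exact absurd rfl hne
              subst hb
              simp [stp, not_lt.mpr hi.le, hi.ne']
          rw [this, run_none] at h3
          exact absurd h3 (by simp)
        refine ⟨h4, ?_⟩
        rw [h4] at h3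
        simpa [stp, not_lt.mpr hi.le, hi.ne'] using h3
      rw [(ih u1 h1).mp fun i hi => (key i hi).1, (ih u2 h2).mp fun i hi => (key i hi).2, W]
    · rintro rfl i hi
      rcases Nat.lt_succ_iff_lt_or_eq.mp hi with hi | rfl
      · have h1 := (ih (W k) (W_lt k)).mpr rfl i hi
        rw [W, run_append, run_cons, h1]
        simpa [stp, not_lt.mpr hi.le, hi.ne'] using h1
      · rw [W, run_append, run_cons, run_low i (W i) (W_lt i)]
        simp [stp, run_low i (W i) (W_lt i)]

end Pool.Agent.Q312.Ruler
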