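import Mathlib

/-!
Semilinear sets: the values of walks in finite graphs, the choice of a linear component with
triangular periods, and integer dependencies.
-/

namespace Pool.Agent.Q312.Walks

open Pointwise

section kleene

variable {Q V : Type} [AddCommMonoid V]

/-- values of the walks in the graph with the edge values `R`, the empty walks included -/
inductive Walk (R : Q → Q → Set V) : Q → Q → V → Prop
  | nil (q : Q) : Walk R q q 0
  | cons {q r q' : Q} {v w : V} : v ∈ R q r → Walk R r q' w → Walk R q q' (v + w)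

/-- values of nonempty walks with interior vertices in `X` -/
inductive WalkIn (R : Q → Q → Set V) (X : Set Q) : Q → Q → V → Prop
  | single {q q' : Q} {v : V} : v ∈ R q q' → WalkIn R X q q' v
  | cons {q r q' : Q} {v w : V} : v ∈ R q r → r ∈ X → WalkIn R X r q' w → WalkIn R X q q' (v + w)

variable {R : Q → Q → Set V}

lemma WalkIn.mono {X Y : Set Q} (h : X ⊆ Y) {q q' : Q} {v : V} (hw : WalkIn R X q q' v) :
    WalkIn R Y q q' v := by
  induction hw with
  | single h1 => exact .single h1
  | cons h1 h2 _ ih => exact .cons h1 (h h2) ih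

lemma WalkIn.trans {X : Set Q} {q r q' : Q} {v w : V} (h1 : WalkIn R X q r v) (h2 : r ∈ X)
    (h3 : WalkIn R X r q' w) : WalkIn R X q q' (v + w) := by
  induction h1 with
  | single h => exact .cons h h2 h3
  | cons h h' _ ih => rw [add_assoc]; exact .cons h h' (ih h2 h3)

lemma closure_trans {X : Set Q} {r q' : Q} (hr : r ∈ X) {w : V}
    (hw : w ∈ AddSubmonoid.closure {v | WalkIn R X r r v}) :
    ∀ u, WalkIn R X r q' u → WalkIn R X r q' (w + u) := by
  induction hw using AddSubmonoid.closure_induction with
  | mem x hx => exact fun u hu => WalkIn.trans hx hr hu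
  | zero => intro u hu; rwa [zero_add]
  | add x y _ _ ih1 ih2 => intro u hu; rw [add_assoc]; exact ih1 _ (ih2 u hu)

lemma walkIn_insert (X : Set Q) (r q q' : Q) :
    {v | WalkIn R (insert r X) q q' v} = {v | WalkIn R X q q' v} ∪
      ({v | WalkIn R X q r v} + (AddSubmonoid.closure {v | WalkIn R X r r v} : Set V) +
        {v | WalkIn R X r q' v}) := by
  have hsub : X ⊆ insert r X := Set.subset_insert r X
  have hr : r ∈ insert r X := Set.mem_insert r X
  apply Set.Subset.antisymm
  · intro v hv
    change WalkIn R (insert r X) q q' v at hv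
    induction hv with
    | single h => exact Or.inl (.single h)
    | @cons q s q' v w h1 h2 _ ih =>
      rcases h2 with rfl | h2
      · right
        rcases ih with ih | ih
        · exact Set.mem_add.mpr ⟨v + 0, Set.add_mem_add (WalkIn.single h1) (zero_mem _), w, ih,
            by rw [add_zero]⟩
        · obtain ⟨u, hu, b, hb, rfl⟩ := Set.mem_add.mp ih
          obtain ⟨a, ha, c, hc, rfl⟩ := Set.mem_add.mp hu
          refine Set.mem_add.mpr ⟨v + (a + c), Set.add_mem_add (WalkIn.single h1)
            (add_mem (AddSubmonoid.subset_closure ha) hc), b, hb, ?_⟩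
          rw [add_assoc]
      · rcases ih with ih | ih
        · exact Or.inl (.cons h1 h2 ih)
        · right
          obtain ⟨u, hu, b, hb, rfl⟩ := Set.mem_add.mp ih
          obtain ⟨a, ha, c, hc, rfl⟩ := Set.mem_add.mp hu
          refine Set.mem_add.mpr ⟨(v + a) + c, Set.add_mem_add (WalkIn.cons h1 h2 ha) hc, b, hb, ?_⟩
          rw [add_assoc, add_assoc, add_assoc]
  · rintro v (hv | hv)
    · exact WalkIn.mono hsub hv
    · obtain ⟨u, hu, b, hb, rfl⟩ := Set.mem_add.mp hv
      obtain ⟨a, ha, c, hc, rfl⟩ := Set.mem_add.mp hu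
      have h1 : c ∈ AddSubmonoid.closure {v | WalkIn R (insert r X) r r v} :=
        AddSubmonoid.closure_mono (fun v hv => WalkIn.mono hsub hv) hc
      rw [add_assoc]
      exact WalkIn.trans (WalkIn.mono hsub ha) hr
        (closure_trans hr h1 b (WalkIn.mono hsub hb))

lemma semilinear_walkIn (hR : ∀ q q', (R q q').Finite) (X : Set Q) (hX : X.Finite) :
    ∀ q q', IsSemilinearSet {v | WalkIn R X q q' v} := by
  induction X, hX using Set.Finite.induction_on with
  | empty =>
    intro q q'
    have : {v | WalkIn R ∅ q q' v} = R q q' := by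
      ext v
      constructor
      · intro h
        change WalkIn R ∅ q q' v at h
        cases h with
        | single h => exact h
        | cons _ h2 _ => exact absurd h2 (Set.notMem_empty _)
      · exact fun h => .single h
    rw [this]
    exact IsSemilinearSet.of_finite (hR q q')
  | @insert r X _ _ ih =>
    intro q q'
    rw [walkIn_insert]
    exact (ih q q').union (((ih q r).add (ih r r).closure).add (ih r q'))

/-- The set of values of the walks is semilinear. -/
theorem semilinear_walk [Finite Q] (hR : ∀ q q', (R q q').Finite) (q q' : Q) :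
    IsSemilinearSet {v | Walk R q q' v} := by
  have h1 : ∀ q q' v, Walk R q q' v → (v = 0 ∧ q = q') ∨ WalkIn R Set.univ q q' v := by
    intro q q' v h
    induction h with
    | nil q => exact Or.inl ⟨rfl, rfl⟩
    | cons h1 _ ih =>
      right
      rcases ih with ⟨rfl, rfl⟩ | ih
      · rw [add_zero]; exact .single h1
      · exact .cons h1 (Set.mem_univ _) ih
  have h2 : ∀ q q' v, WalkIn R Set.univ q q' v → Walk R q q' v := by
    intro q q' v h
    induction h with
    | single h =>
      have := Walk.cons h (Walk.nil _)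
      rwa [add_zero] at this
    | cons h _ _ ih => exact .cons h ih
  have h3 := semilinear_walkIn hR Set.univ Set.finite_univ q q'
  by_cases hq : q = q'
  · have : {v | Walk R q q' v} = {0} ∪ {v | WalkIn R Set.univ q q' v} := by
      ext v
      constructor
      · intro h
        rcases h1 q q' v h with h | h
        · exact Or.inl h.1
        · exact Or.inr h
      · rintro (h | h)
        · have h' : v = 0 := h
          subst h'
          subst hq
          exact .nil q
        · exact h2 _ _ _ h
    rw [this]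
    exact (IsSemilinearSet.singleton 0).union h3
  · have : {v | Walk R q q' v} = {v | WalkIn R Set.univ q q' v} := by
      ext v
      constructor
      · intro h
        rcases h1 q q' v h with h | h
        · exact absurd h.2 hq
        · exact h
      · exact h2 _ _ _
    rw [this]
    exact h3

end kleene

/-- A finite family of linear sets, such that each `n ∈ ℕ^K` is the value of the functionals
`N j` at some element of one of them, has a member with a triangular family of periods. -/
theorem exists_component {M : Type} [AddCommMonoid M] (K : ℕ) (N : Fin K → M →+ ℕ)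
    (F : Set (Set M)) (hF : F.Finite) (hlin : ∀ l ∈ F, IsLinearSet l)
    (hcov : ∀ n : Fin K → ℕ, ∃ l ∈ F, ∃ z ∈ l, ∀ j, N j z = n j) :
    ∃ l ∈ F, ∃ a : M, ∃ d : Fin K → M, (∀ c : Fin K → ℕ, a + ∑ i, c i • d i ∈ l) ∧
      ∀ i, 0 < N i (d i) ∧ ∀ j, i < j → N j (d i) = 0 := by
  classical
  choose! a t ht hat' using hlin
  have hat : ∀ l ∈ F, ∀ z, z ∈ l ↔ z ∈ (a l +ᵥ (AddSubmonoid.closure (t l) : Set M)) := by
    intro l hl z
    exact Set.ext_iff.mp (hat' l hl) z
  by_contra hcon
  push Not at hcon
  -- bad indices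
  have hbad : ∀ l ∈ F, ∃ i : Fin K, ∀ d ∈ t l, 0 < N i d → ∃ j, i < j ∧ N j d ≠ 0 := by
    intro l hl
    by_contra hc
    push Not at hc
    choose d hd1 hd2 hd3 using hc
    obtain ⟨i, hi⟩ := hcon l hl (a l) d (by
      intro c
      rw [hat l hl _]
      refine Set.mem_vadd_set.mpr ⟨∑ i, c i • d i, ?_, rfl⟩
      exact sum_mem fun i _ => AddSubmonoid.nsmul_mem _ (AddSubmonoid.subset_closure (hd1 i)) _)
    obtain ⟨j, hj1, hj2⟩ := hi (hd2 i)
    exact hj2 (hd3 i j hj1)
  -- constants
  obtain ⟨T, hT1, hT2⟩ : ∃ T : ℕ, (∀ l ∈ F, ∀ i, N i (a l) ≤ T) ∧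
      (∀ l ∈ F, ∀ d ∈ t l, ∀ i, N i d ≤ T) := by
    have h1 : (⋃ l ∈ F, ⋃ i : Fin K, {N i (a l)} ∪ ⋃ d ∈ t l, {N i d}).Finite := by
      apply hF.biUnion
      intro l hl
      apply Set.finite_iUnion
      intro i
      apply (Set.finite_singleton _).union
      exact (ht l hl).biUnion fun d _ => Set.finite_singleton _
    obtain ⟨T, hT⟩ := h1.bddAbove
    refine ⟨T, fun l hl i => hT ?_, fun l hl d hd i => hT ?_⟩
    · simp only [Set.mem_iUnion]
      exact ⟨l, hl, i, Or.inl rfl⟩
    · simp only [Set.mem_iUnion]
      refine ⟨l, hl, i, Or.inr ?_⟩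
      simp only [Set.mem_iUnion]
      exact ⟨d, hd, rfl⟩
  -- the point
  let n : Fin K → ℕ := fun i => (T + 2) ^ (K - i.val)
  obtain ⟨l, hl, z, hz, hzn⟩ := hcov n
  obtain ⟨i, hi⟩ := hbad l hl
  rw [hat l hl _] at hz
  obtain ⟨w, hw, rfl⟩ := Set.mem_vadd_set.mp hz
  have h1 : N i w ≤ T * ∑ j ∈ Finset.univ.filter (i < ·), N j w := by
    have hw' : w ∈ AddSubmonoid.closure (t l) := hw
    clear hz hw hzn
    induction hw' using AddSubmonoid.closure_induction with
    | mem d hd =>
      rcases Nat.eq_zero_or_pos (N i d) with h | h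
      · rw [h]; exact Nat.zero_le _
      · obtain ⟨j, hj1, hj2⟩ := hi d hd h
        calc N i d ≤ T * 1 := by rw [mul_one]; exact hT2 l hl d hd i
          _ ≤ T * ∑ j ∈ Finset.univ.filter (i < ·), N j d := by
            apply Nat.mul_le_mul_left
            refine le_trans (Nat.one_le_iff_ne_zero.mpr hj2) ?_
            exact Finset.single_le_sum (f := fun j => N j d) (fun _ _ => Nat.zero_le _)
              (by simpa using hj1)
    | zero => simp
    | add x y _ _ ihx ihy =>
      simp only [map_add, Finset.sum_add_distrib, mul_add]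
      exact add_le_add ihx ihy
  have h2 : n i ≤ T + T * ∑ j ∈ Finset.univ.filter (i < ·), n j := by
    rw [← hzn i]
    have h3 : N i (a l +ᵥ w) = N i (a l) + N i w := by rw [vadd_eq_add, map_add]
    rw [h3]
    refine add_le_add (hT1 l hl i) (h1.trans (Nat.mul_le_mul_left _ ?_))
    apply Finset.sum_le_sum
    intro j _
    rw [← hzn j, vadd_eq_add, map_add]
    exact Nat.le_add_left _ _
  -- the sum is a partial geometric sum
  have h3 : ∑ j ∈ Finset.univ.filter (i < ·), n j ≤
      ∑ e ∈ Finset.Ico 1 (K - i.val), (T + 2) ^ e := by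
    have hinj : Set.InjOn (fun j : Fin K => K - j.val) (Finset.univ.filter (i < ·) : Finset (Fin K)) := by
      intro x _ y _ h
      apply Fin.ext
      have := x.2
      have := y.2
      simp only at h
      omega
    have h4 : ∑ j ∈ Finset.univ.filter (i < ·), n j =
        ∑ e ∈ (Finset.univ.filter (i < ·)).image (fun j : Fin K => K - j.val), (T + 2) ^ e := by
      rw [Finset.sum_image hinj]
    rw [h4]
    apply Finset.sum_le_sum_of_subset
    intro e he
    obtain ⟨j, hj, rfl⟩ := Finset.mem_image.mp he
    have hj' : i < j := by simpa using hj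
    have := j.2
    rw [Finset.mem_Ico]
    have : i.val < j.val := hj'
    omega
  have h5 : ∀ k : ℕ, 1 ≤ k → T + T * ∑ e ∈ Finset.Ico 1 k, (T + 2) ^ e < (T + 2) ^ k := by
    intro k hk
    induction k, hk using Nat.le_induction with
    | base => simp
    | succ k hk ih =>
      rw [Finset.sum_Ico_succ_top hk, mul_add, ← add_assoc, pow_succ]
      have : 0 < (T + 2) ^ k := by positivity
      nlinarith
  have h6 := h5 (K - i.val) (by have := i.2; omega)
  have h7 : n i = (T + 2) ^ (K - i.val) := rfl
  have h8 := Nat.mul_le_mul_left T h3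
  omega

/-- `m + 1` vectors of `ℕ^m` have a nontrivial relation with natural coefficients. -/
theorem exists_relation {m : ℕ} (v : Fin (m + 1) → Fin m → ℕ) :
    ∃ c c' : Fin (m + 1) → ℕ, c ≠ c' ∧ ∑ i, c i • v i = ∑ i, c' i • v i := by
  obtain ⟨g, hg1, i0, hg2⟩ : ∃ g : Fin (m + 1) → ℤ,
      (∀ l, ∑ i, g i * (v i l : ℤ) = 0) ∧ ∃ i, g i ≠ 0 := by
    rcases Nat.eq_zero_or_pos m with rfl | hm
    · exact ⟨fun _ => 1, fun l => l.elim0, 0, one_ne_zero⟩
    · obtain ⟨g, h1, h2, -⟩ := Int.Matrix.exists_ne_zero_int_vec_norm_le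
        (Matrix.of fun (l : Fin m) (i : Fin (m + 1)) => (v i l : ℤ)) (by simp) (by simpa using hm)
      refine ⟨g, fun l => ?_, Function.ne_iff.mp h1⟩
      have := congrFun h2 l
      simp only [Matrix.mulVec, dotProduct, Matrix.of_apply, Pi.zero_apply] at this
      rw [← this]
      exact Finset.sum_congr rfl fun i _ => mul_comm _ _
  refine ⟨fun i => (g i).toNat, fun i => (-g i).toNat, ?_, ?_⟩
  · intro h
    have h1 : (g i0).toNat = (-g i0).toNat := congrFun h i0
    omega
  · funext l
    have h1 := hg1 l
    rw [Finset.sum_apply, Finset.sum_apply]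
    zify
    rw [← sub_eq_zero, ← Finset.sum_sub_distrib, ← h1]
    apply Finset.sum_congr rfl
    intro i _
    simp only [Pi.smul_apply, smul_eq_mul, Nat.cast_mul]
    have : ((g i).toNat : ℤ) - ((-g i).toNat : ℤ) = g i := by omega
    rw [← sub_mul, this]

end Pool.Agent.Q312.Walks
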